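import Pool.Agent.Q68.RA.Step

/-!
# MP_dbc030_an: `D^(1)(X) ⊆ R(X)` for every compact plane set `X`
-/

set_option autoImplicit false
open Complex MeasureTheory Filter Topology Metric Set

namespace Pool.Agent.Results.MP_dbc030_an.DifferentiableInRX

/-- `f` belongs to `R(X)`: it is a uniform limit on `X` of rational functions `p / q` whose
poles lie off `X`. -/
def InRX (X : Set ℂ) (f : ℂ → ℂ) : Prop :=
  ∀ ε : ℝ, 0 < ε → ∃ p q : Polynomial ℂ, (∀ z ∈ X, q.eval z ≠ 0) ∧
    ∀ z ∈ X, ‖f z - p.eval z / q.eval z‖ < ε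

lemma lip_of_deriv {X : Set ℂ} (hX : IsCompact X) {f : ℂ → ℂ} (hfc : ContinuousOn f X) {a c : ℂ}
    (ha : a ∈ X) (hc : HasDerivWithinAt f c X a) : ∃ k : ℝ, ∀ z ∈ X, ‖f z - f a‖ ≤ k * ‖z - a‖ := by
  obtain ⟨B, hB⟩ := hX.exists_bound_of_continuousOn hfc
  have hB0 : 0 ≤ B := (norm_nonneg _).trans (hB a ha)
  have h1 := (hasDerivWithinAt_iff_isLittleO.1 hc).def one_pos
  obtain ⟨δ, hδ, hball⟩ := Metric.mem_nhdsWithin_iff.1 h1
  refine ⟨(‖c‖ + 1) + 2 * B / δ, fun z hz => ?_⟩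
  have h2 : 0 ≤ 2 * B / δ := by positivity
  by_cases hzδ : z ∈ ball a δ
  · have h3 := hball ⟨hzδ, hz⟩
    simp only [mem_ofPred_eq, smul_eq_mul, one_mul] at h3
    have h4 : ‖f z - f a‖ ≤ ‖f z - f a - (z - a) * c‖ + ‖(z - a) * c‖ := by
      have := norm_add_le (f z - f a - (z - a) * c) ((z - a) * c)
      rwa [sub_add_cancel] at this
    rw [norm_mul] at h4
    have h5 : 0 ≤ 2 * B / δ * ‖z - a‖ := mul_nonneg h2 (norm_nonneg _)
    nlinarith
  · rw [mem_ball, not_lt, dist_eq_norm] at hzδ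
    have h3 : ‖f z - f a‖ ≤ 2 * B := by
      refine (norm_sub_le _ _).trans ?_
      have := hB z hz
      have := hB a ha
      linarith
    have h4 : 2 * B ≤ 2 * B / δ * ‖z - a‖ := by
      rw [div_mul_eq_mul_div, le_div_iff₀ hδ]
      exact mul_le_mul_of_nonneg_left hzδ (by positivity)
    have h5 : 0 ≤ (‖c‖ + 1) * ‖z - a‖ := by positivity
    nlinarith

/-- **Theorem.**
(1) Let `X` be a nonempty perfect compact plane set and let `f` be a function on `X` that has at
every point `a` of `X` the derivative `f' a` along `X`, with `f'` continuous on `X`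
(that is, `f ∈ D^(1)(X)`).  Then `f ∈ R(X)`.
(2) More generally, let `X` be any compact plane set, and let `f` be pointwise Lipschitz at every
point of `X` and complex differentiable along `X` at almost every point of `X` with respect to
area.  Then `f ∈ R(X)`. -/
theorem result :
    (∀ X : Set ℂ, IsCompact X → X.Nonempty → (∀ x ∈ X, AccPt x (𝓟 X)) → ∀ f f' : ℂ → ℂ,
      (∀ a ∈ X, HasDerivWithinAt f (f' a) X a) → ContinuousOn f' X → InRX X f) ∧
    (∀ X : Set ℂ, IsCompact X → ∀ f : ℂ → ℂ,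
      (∀ a ∈ X, ∃ k : ℝ, ∀ z ∈ X, ‖f z - f a‖ ≤ k * ‖z - a‖) →
      (∀ᵐ a ∂(volume : Measure ℂ), a ∈ X → ∃ c, HasDerivWithinAt f c X a) → InRX X f) := by
  refine ⟨?_, ?_⟩
  · intro X hX _ _ f f' hf _
    have hfc : ContinuousOn f X := fun a ha => (hf a ha).continuousWithinAt
    exact Pool.Agent.Q68.RA.main_rx hX (fun a ha => lip_of_deriv hX hfc ha (hf a ha))
      (Eventually.of_forall fun a ha => ⟨_, hf a ha⟩)
  · intro X hX f h1 h2
    exact Pool.Agent.Q68.RA.main_rx hX h1 h2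

end Pool.Agent.Results.MP_dbc030_an.DifferentiableInRX
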